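import Pool.Agent.E8helper30.MC.Stm

/-!
# Frames (project MC, parts FRH and FR)
-/

set_option autoImplicit false

namespace Pool.Agent.E8helper42.MC

open scoped Classical Pointwise
open Pool.Agent.E8helper30.MC

theorem t_FRH : S_FRH := by
  intro G _ _ H
  letI := Fintype.ofFinite G
  letI := Fintype.ofFinite (G ⧸ H)
  set I : Finset G := Finset.univ.filter (fun g => g ∈ H) with hI
  have hmem : ∀ g, g ∈ I ↔ g ∈ H := by
    intro g
    rw [hI, Finset.mem_filter]
    simp
  have hcard : I.card = Nat.card H := by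
    rw [Nat.card_eq_fintype_card, Fintype.card_subtype]
  have hinj : Function.Injective (Quotient.out : G ⧸ H → G) := Quotient.out_injective
  refine ⟨I, I, Finset.univ.image (Quotient.out : G ⧸ H → G), fun _ => 0, 1,
    ⟨fun g _ => ⟨le_refl _, by norm_num⟩, ?_, ?_, by omega⟩, hcard, ?_, ?_⟩
  · intro g hg w hw
    rw [hmem] at hg hw
    refine ⟨?_, by norm_num, le_refl _⟩
    rw [hmem]
    have := H.sub_mem hg hw
    simpa using this
  · intro g hg w hw _ _
    rw [hmem] at hg hw ⊢
    exact H.sub_mem hg hw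
  · intro g
    refine ⟨Quotient.out (QuotientAddGroup.mk g : G ⧸ H), Finset.mem_image_of_mem _
      (Finset.mem_univ _), ?_⟩
    rw [hmem]
    have h1 : (QuotientAddGroup.mk (Quotient.out (QuotientAddGroup.mk g : G ⧸ H)) : G ⧸ H) =
        QuotientAddGroup.mk g := Quotient.out_eq _
    have h2 := QuotientAddGroup.eq.1 h1
    rwa [neg_add_eq_sub] at h2
  · rw [Finset.card_image_of_injective _ hinj, hcard, Finset.card_univ, ← Nat.card_eq_fintype_card]
    exact (AddSubgroup.card_eq_card_quotient_mul_card_addSubgroup H).symm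

theorem t_FR (h1 : S_SGR) (h2 : S_FRH) (h3 : S_FRI) : S_FR := by
  intro G _ _ t ht1 ht2
  rcases ht2.eq_or_lt with h | h
  · obtain ⟨I, D, X, φ, ℓ, hF, hc, hX, hXI⟩ := h2 G ⊤
    have h4 : Nat.card (⊤ : AddSubgroup G) = Nat.card G := AddSubgroup.card_top
    refine ⟨I, D, X, φ, ℓ, hF, ?_, ?_, hX, ?_⟩
    · omega
    · omega
    · omega
  · obtain ⟨H, H', x, p, hH1, hH2, hp, hH3, hx⟩ := h1 G t ht1 h
    by_cases h5 : p * Nat.card H ≤ 4 * t
    · obtain ⟨I, D, X, φ, ℓ, hF, hc, hX, hXI⟩ := h2 G H'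
      refine ⟨I, D, X, φ, ℓ, hF, ?_, ?_, hX, ?_⟩
      · rw [hc, hH3]; exact hH2.le
      · rw [hc, hH3]; exact h5
      · omega
    · push Not at h5
      have hpos : 0 < Nat.card H := Nat.card_pos
      set k := Nat.card H with hk
      have e1 : k * ((t - 1) / k) ≤ t - 1 := Nat.mul_div_le _ _
      have e2 : t - 1 < k * ((t - 1) / k) + k := Nat.lt_mul_div_succ _ hpos |>.trans_eq (by ring)
      set r := (t - 1) / k with hr
      have e3 : (r + 1) * k = k * r + k := by ring
      have e4 : 2 * (r + 1) ≤ p := by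
        by_contra hc
        push Not at hc
        have : p * k ≤ (2 * (r + 1)) * k := Nat.mul_le_mul_right _ hc.le
        have e5 : (2 * (r + 1)) * k = 2 * (k * r + k) := by ring
        omega
      obtain ⟨I, D, X, φ, ℓ, hF, hc, hX, hXI⟩ := h3 G H x p (r + 1) hx (Nat.le_add_left 1 r) e4
      refine ⟨I, D, X, φ, ℓ, hF, ?_, ?_, hX, hXI⟩
      · rw [hc, ← hk, e3]; omega
      · rw [hc, ← hk, e3]; omega

end Pool.Agent.E8helper42.MC
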